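import Pool.Agent.H652Z.Pal.Example

open Pool.Agent.H652Z.Pal

/-- There is a palindromic fixed point `u` of a primitive morphism whose language is not the
language of `ψ(v)` for any fixed point `v` of a primitive morphism `φ` with `φ` and `ψ` conjugate
to morphisms in class P. -/
theorem Pool.Agent.Results.MP_6957f6_co.AWeakClassPFails.result :
    ∃ (φ₀ : Fin 6 → List (Fin 6)) (u : ℕ → Fin 6),
      IsPrimitive φ₀ ∧ IsFixedPoint φ₀ u ∧ IsPalindromic u ∧
      ∀ (B : Type) [Finite B] (φ : B → List B) (ψ : B → List (Fin 6)) (v : ℕ → B),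
        IsPrimitive φ → ConjClassP φ → ConjClassP ψ → IsFixedPoint φ v →
          imageLanguage ψ v ≠ language u :=
  main
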